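import Pool.Agent.K7.H55.RH.Near
import Pool.Agent.Results.MP_e47f08_nt.HurwitzZetaValues

/-!
# Values of the Hurwitz zeta, digamma and Gamma functions at rational points: counting the exceptional tuples
-/

set_option autoImplicit false

open NumberField

namespace Pool.Agent.K7.H55.HZ

open Pool.Agent.Results.MP_e47f08_nt.HurwitzZetaValues Pool.Agent.K7.H55.RH

/-- The numbers `F s (x_j + a_k)`, `s ≤ S`, satisfy approximately, with error `ε`, a nontrivial polynomial relation of degree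
at most `d` in each of them, with coefficients `∑ ξ_i c_i`, where the `c_i` are integers of absolute value at most `M`. -/
def Rel {r p g : ℕ} (S d : ℕ) (M ε : ℝ) (ξ : Fin g → ℂ) (a : Fin p → ℂ) (x : Fin r → ℚ) : Prop :=
  ∃ P : MvPolynomial (Fin r × Fin p × Fin (S + 1)) ℂ, (∀ u, P.degreeOf u ≤ d) ∧
    (∀ s, ∃ c : Fin g → ℤ, (∀ i, |(c i : ℝ)| ≤ M) ∧ P.coeff s = ∑ i, ξ i * c i) ∧
    ∃ s₀, P.coeff s₀ ≠ 0 ∧
      ‖MvPolynomial.aeval (fun u : Fin r × Fin p × Fin (S + 1) => F u.2.2 ((x u.1 : ℂ) + a u.2.1)) P‖ ≤ ε * ‖P.coeff s₀‖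

theorem Rel.mono {r p g S d : ℕ} {M M' ε ε' : ℝ} (hM : M ≤ M') (hε : ε ≤ ε') {ξ : Fin g → ℂ} {a : Fin p → ℂ} {x : Fin r → ℚ}
    (h : Rel S d M ε ξ a x) : Rel S d M' ε' ξ a x := by
  obtain ⟨P, h1, h2, s₀, h3, h4⟩ := h
  refine ⟨P, h1, fun s => ?_, s₀, h3, h4.trans (mul_le_mul_of_nonneg_right hε (norm_nonneg _))⟩
  obtain ⟨c, hc, hc'⟩ := h2 s
  exact ⟨c, fun i => (hc i).trans hM, hc'⟩

/-- the embedding of the rational numbers -/
noncomputable def io : ℚ →+* ℂ := algebraMap ℚ ℂ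

theorem Rel.related {r p g S d : ℕ} {M ε : ℝ} {ξ : Fin g → ℂ} {a : Fin p → ℂ} {x : Fin r → ℚ}
    (h : Rel S d M ε ξ a x) : Related (K := ℚ) S d M ε io ξ a x := by
  obtain ⟨P, h1, h2, s₀, h3, h4⟩ := h
  refine ⟨P, h1, fun s => ?_, s₀, h3, ?_⟩
  · obtain ⟨c, hc, hc'⟩ := h2 s
    refine ⟨fun i => (c i : 𝓞 ℚ), fun i φ => ?_, ?_⟩
    · have e : φ (((c i : 𝓞 ℚ)) : ℚ) = (c i : ℂ) := by simp
      rw [e, Complex.norm_intCast]
      exact hc i
    · rw [hc']
      apply Finset.sum_congr rfl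
      intro i _
      congr 1
  · have e : (fun u : Fin r × Fin p × Fin (S + 1) => F u.2.2 ((x u.1 : ℂ) + a u.2.1)) =
        fun u : Fin r × Fin p × Fin (S + 1) => F u.2.2 (io (x u.1) + a u.2.1) := by
      funext u
      congr 2
    rw [← e]
    exact h4

theorem quot_of_den {T β : ℝ} (hβ : 1 ≤ β) {x : ℚ} (hx : |(x : ℝ)| ≤ β) (hd : (x.den : ℝ) ≤ T) : Quot ℚ (β * T) x := by
  have hd0 : (0 : ℝ) < x.den := by exact_mod_cast x.den_pos
  have hT : 0 < T := hd0.trans_le hd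
  refine ⟨(x.num : 𝓞 ℚ), (x.den : 𝓞 ℚ), ?_, fun φ => ⟨?_, ?_⟩, ?_⟩
  · exact_mod_cast x.den_ne_zero
  · have e : φ (((x.num : 𝓞 ℚ)) : ℚ) = (x.num : ℂ) := by simp
    rw [e, Complex.norm_intCast]
    have hq : (x : ℝ) * x.den = x.num := by
      have := Rat.mul_den_eq_num x
      exact_mod_cast this
    rw [← hq, abs_mul, abs_of_pos hd0]
    exact mul_le_mul hx hd hd0.le (by linarith)
  · have e : φ (((x.den : 𝓞 ℚ)) : ℚ) = (x.den : ℂ) := by simp
    rw [e, Complex.norm_natCast]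
    nlinarith
  · have := Rat.num_div_den x
    simp only [map_intCast, map_natCast]
    exact this.symm

/-- from shells to balls -/
theorem dyadic {τ : Type} (H : τ → ℝ) (h1 : ∀ t, 1 ≤ H t) (Bad : τ → Prop) {σ C : ℝ} (hσ : 0 < σ) (hC : 0 ≤ C)
    (h : ∀ T : ℝ, 1 ≤ T → {t | Bad t ∧ T / 2 < H t ∧ H t ≤ T}.Finite ∧
      (({t | Bad t ∧ T / 2 < H t ∧ H t ≤ T}.ncard : ℕ) : ℝ) ≤ C * T ^ σ) :
    ∃ C' : ℝ, ∀ T : ℝ, 1 ≤ T → {t | Bad t ∧ H t ≤ T}.Finite ∧ (({t | Bad t ∧ H t ≤ T}.ncard : ℕ) : ℝ) ≤ C' * T ^ σ := by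
  have h2 : (2 : ℝ) ^ (-σ) < 1 := Real.rpow_lt_one_of_one_lt_of_neg (by norm_num) (by linarith)
  have h20 : (0 : ℝ) < 2 ^ (-σ) := Real.rpow_pos_of_pos (by norm_num) _
  have h3 : 0 < 1 - (2 : ℝ) ^ (-σ) := by linarith
  set C' : ℝ := C / (1 - 2 ^ (-σ)) with hC'
  have hC'0 : 0 ≤ C' := by positivity
  have hCC : C' * 2 ^ (-σ) + C = C' := by
    have : C = C' * (1 - 2 ^ (-σ)) := by rw [hC']; field_simp
    nlinarith
  have key : ∀ n : ℕ, ∀ T : ℝ, 1 ≤ T → T ≤ 2 ^ n →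
      {t | Bad t ∧ H t ≤ T}.Finite ∧ (({t | Bad t ∧ H t ≤ T}.ncard : ℕ) : ℝ) ≤ C' * T ^ σ := by
    have small : ∀ T : ℝ, 1 ≤ T → T < 2 → {t | Bad t ∧ H t ≤ T}.Finite ∧ (({t | Bad t ∧ H t ≤ T}.ncard : ℕ) : ℝ) ≤ C' * T ^ σ := by
      intro T hT hT2
      have e : {t | Bad t ∧ H t ≤ T} = {t | Bad t ∧ T / 2 < H t ∧ H t ≤ T} := by
        ext t
        constructor
        · rintro ⟨a, b⟩
          exact ⟨a, by linarith [h1 t], b⟩
        · rintro ⟨a, _, b⟩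
          exact ⟨a, b⟩
      rw [e]
      refine ⟨(h T hT).1, (h T hT).2.trans ?_⟩
      apply mul_le_mul_of_nonneg_right _ (by positivity)
      have : 0 ≤ C' * 2 ^ (-σ) := by positivity
      linarith
    intro n
    induction n with
    | zero =>
      intro T hT hT2
      rw [pow_zero] at hT2
      exact small T hT (by linarith)
    | succ n ih =>
      intro T hT hT2
      rcases lt_or_ge T 2 with h4 | h4
      · exact small T hT h4
      · obtain ⟨f1, c1⟩ := ih (T / 2) (by linarith) (by rw [pow_succ] at hT2; linarith)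
        obtain ⟨f2, c2⟩ := h T hT
        have e : {t | Bad t ∧ H t ≤ T} = {t | Bad t ∧ H t ≤ T / 2} ∪ {t | Bad t ∧ T / 2 < H t ∧ H t ≤ T} := by
          ext t
          constructor
          · rintro ⟨a, b⟩
            rcases le_or_gt (H t) (T / 2) with h5 | h5
            · exact Or.inl ⟨a, h5⟩
            · exact Or.inr ⟨a, h5, b⟩
          · rintro (⟨a, b⟩ | ⟨a, _, b⟩)
            · exact ⟨a, by linarith⟩
            · exact ⟨a, b⟩
        rw [e]
        refine ⟨f1.union f2, ?_⟩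
        have h5 : (({t | Bad t ∧ H t ≤ T / 2} ∪ {t | Bad t ∧ T / 2 < H t ∧ H t ≤ T}).ncard : ℝ) ≤
            (({t | Bad t ∧ H t ≤ T / 2}.ncard : ℕ) : ℝ) + (({t | Bad t ∧ T / 2 < H t ∧ H t ≤ T}.ncard : ℕ) : ℝ) := by
          exact_mod_cast Set.ncard_union_le _ _
        have h6 : (T / 2) ^ σ = 2 ^ (-σ) * T ^ σ := by
          rw [Real.div_rpow (by linarith) (by norm_num), Real.rpow_neg (by norm_num), div_eq_inv_mul]
        calc (({t | Bad t ∧ H t ≤ T / 2} ∪ {t | Bad t ∧ T / 2 < H t ∧ H t ≤ T}).ncard : ℝ)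
            ≤ C' * (T / 2) ^ σ + C * T ^ σ := h5.trans (add_le_add c1 c2)
          _ = (C' * 2 ^ (-σ) + C) * T ^ σ := by rw [h6]; ring
          _ = C' * T ^ σ := by rw [hCC]
  refine ⟨C', fun T hT => ?_⟩
  obtain ⟨n, hn⟩ := pow_unbounded_of_one_lt T (by norm_num : (1 : ℝ) < 2)
  exact key n T hT hn.le

/-- the count of the exceptional tuples of height about `T` in `[α, β] ^ r` -/
theorem shell (r p d g S : ℕ) (hr : 1 ≤ r) (a : Fin p → ℂ) (ha : ∀ k, 0 ≤ (a k).re)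
    (hsep : ∀ k l, ∀ n : ℤ, a k - a l = n → k = l) (α β A ε : ℝ) (hα : 0 < α) (hβ : 1 ≤ β) (hA : 0 ≤ A) (hε : 0 < ε) :
    ∃ B C : ℝ, 0 ≤ B ∧ 0 ≤ C ∧ ∀ ξ : Fin g → ℂ, ∀ T : ℝ, 1 ≤ T →
      {t : Fin r → ℚ | ((∀ k, α ≤ (t k : ℝ) ∧ (t k : ℝ) ≤ β) ∧
        Rel S d ((height t : ℝ) ^ A) ((height t : ℝ) ^ (-B)) ξ a t) ∧ T / 2 < (height t : ℝ) ∧ (height t : ℝ) ≤ T}.Finite ∧
      ({t : Fin r → ℚ | ((∀ k, α ≤ (t k : ℝ) ∧ (t k : ℝ) ≤ β) ∧
        Rel S d ((height t : ℝ) ^ A) ((height t : ℝ) ^ (-B)) ξ a t) ∧ T / 2 < (height t : ℝ) ∧ (height t : ℝ) ≤ T}.ncard : ℝ) ≤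
        C * T ^ ((2 * ((r : ℝ) - 1)) + ε) := by
  classical
  have hr0 : (0 : ℝ) < r := by exact_mod_cast hr
  have hr1 : (1 : ℝ) ≤ r := by exact_mod_cast hr
  set δ : ℝ := ε / r with hδ
  have hδ0 : 0 < δ := by positivity
  obtain ⟨B₀, C₀, T₀, H⟩ := (Pool.Agent.Results.MP_e47f08_nt.HurwitzZetaValues.result 1 S A).1 r p d g a ha hsep α β δ hα hδ0
  have H1 := H ℚ (by simp) io
  set B₁ : ℝ := max B₀ 0 with hB₁
  have hB₁0 : 0 ≤ B₁ := le_max_right _ _
  set T₁ : ℝ := max (max T₀ 1) (2 ^ (B₁ + 1) * β ^ B₁) with hT₁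
  have hT₁1 : 1 ≤ T₁ := (le_max_right _ _).trans (le_max_left _ _)
  -- the rational numbers
  set X : ℝ → Finset ℚ := fun T => ((box_finite β T).toFinset).filter fun q => α ≤ (q : ℝ) ∧ (q : ℝ) ≤ β with hX
  have hXmem : ∀ (T : ℝ) (q : ℚ), q ∈ X T ↔ (|(q : ℝ)| ≤ β ∧ (q.den : ℝ) ≤ T) ∧ α ≤ (q : ℝ) ∧ (q : ℝ) ≤ β := by
    intro T q
    rw [hX, Finset.mem_filter, Set.Finite.mem_toFinset]
    exact Iff.rfl
  have hXc : ∀ T : ℝ, 1 ≤ T → ((X T).card : ℝ) ≤ (2 * β + 1) * T ^ 2 := by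
    intro T hT
    have h1 : (X T).card ≤ (box_finite β T).toFinset.card := Finset.card_filter_le _ _
    rw [← Set.ncard_eq_toFinset_card _ (box_finite β T)] at h1
    have h2 := box_card β T (by linarith) hT
    have h3 : ((X T).card : ℝ) ≤ ({q : ℚ | |(q : ℝ)| ≤ β ∧ (q.den : ℝ) ≤ T}.ncard : ℝ) := by
      exact_mod_cast h1
    exact h3.trans h2
  have hin : ∀ (T : ℝ) (t : Fin r → ℚ), (∀ k, α ≤ (t k : ℝ) ∧ (t k : ℝ) ≤ β) → (height t : ℝ) ≤ T → ∀ k, t k ∈ X T := by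
    intro T t h1 h2 k
    rw [hXmem]
    refine ⟨⟨?_, (den_le_height t k).trans h2⟩, h1 k⟩
    rw [abs_of_pos (by linarith [(h1 k).1])]
    exact (h1 k).2
  have hK0 : 0 ≤ (β + 1) * β ^ δ + 1 := by positivity
  set C : ℝ := ((β + 1) * β ^ δ + 1) ^ r * (|C₀| * (r * (2 * β + 1) ^ (r - 1))) + ((2 * β + 1) * T₁ ^ 2) ^ r with hC
  refine ⟨B₁ + 1, C, by linarith, by positivity, fun ξ T hT => ?_⟩
  have hT0 : 0 < T := by linarith
  have hTσ : 1 ≤ T ^ ((2 * ((r : ℝ) - 1)) + ε) := Real.one_le_rpow hT (by linarith)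
  set Sh : Set (Fin r → ℚ) := {t : Fin r → ℚ | ((∀ k, α ≤ (t k : ℝ) ∧ (t k : ℝ) ≤ β) ∧
        Rel S d ((height t : ℝ) ^ A) ((height t : ℝ) ^ (-(B₁ + 1))) ξ a t) ∧ T / 2 < (height t : ℝ) ∧ (height t : ℝ) ≤ T} with hSh
  have hShX : Sh ⊆ ((Fintype.piFinset fun _ : Fin r => X T : Finset (Fin r → ℚ)) : Set (Fin r → ℚ)) := by
    rintro t ⟨⟨h1, h2⟩, h3, h4⟩
    rw [Finset.mem_coe, Fintype.mem_piFinset]
    exact hin T t h1 h4
  have hfin : Sh.Finite := (Finset.finite_toSet _).subset hShX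
  refine ⟨hfin, ?_⟩
  rcases lt_or_ge T T₁ with hTT | hTT
  · -- few tuples
    have h1 : Sh.ncard ≤ (Fintype.piFinset fun _ : Fin r => X T : Finset (Fin r → ℚ)).card := by
      rw [← Set.ncard_coe_finset]
      exact Set.ncard_le_ncard hShX (Finset.finite_toSet _)
    rw [Fintype.card_piFinset_const] at h1
    have h2 : (Sh.ncard : ℝ) ≤ ((X T).card : ℝ) ^ r := by exact_mod_cast h1
    have h3 : ((X T).card : ℝ) ^ r ≤ ((2 * β + 1) * T₁ ^ 2) ^ r := by
      apply pow_le_pow_left₀ (Nat.cast_nonneg _)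
      refine (hXc T hT).trans ?_
      gcongr
    have h4 : ((2 * β + 1) * T₁ ^ 2) ^ r ≤ C := by
      rw [hC]
      have : 0 ≤ ((β + 1) * β ^ δ + 1) ^ r * (|C₀| * (r * (2 * β + 1) ^ (r - 1))) := by positivity
      linarith
    have hC0 : 0 ≤ C := by positivity
    calc (Sh.ncard : ℝ) ≤ C := h2.trans (h3.trans h4)
      _ = C * 1 := (mul_one _).symm
      _ ≤ _ := mul_le_mul_of_nonneg_left hTσ hC0
  · -- the cells
    set T' : ℝ := β * T with hT'
    have hT'T : T ≤ T' := by rw [hT']; nlinarith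
    have hT'1 : 1 ≤ T' := hT.trans hT'T
    have hT'0 : 0 < T' := by linarith
    have hT₀' : T₀ ≤ T' := (((le_max_left _ _).trans (le_max_left _ _)).trans hTT).trans hT'T
    have hPd0 : 0 < T' ^ δ := Real.rpow_pos_of_pos hT'0 _
    have hPd1 : 1 ≤ T' ^ δ := Real.one_le_rpow hT'1 hδ0.le
    set cell : ℚ → ℕ := fun q => ⌊((q : ℝ) - α) * T' ^ δ⌋₊ with hcell
    set M : ℕ := ⌊β * T' ^ δ⌋₊ with hM
    set Y : ℕ → Finset ℚ := fun c => (X T).filter fun q => cell q = c with hY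
    have hYX : ∀ c, (Y c).card ≤ (X T).card := fun c => Finset.card_filter_le _ _
    have hYmem : ∀ c, ∀ q ∈ Y c, ((|(q : ℝ)| ≤ β ∧ (q.den : ℝ) ≤ T) ∧ α ≤ (q : ℝ) ∧ (q : ℝ) ≤ β) ∧ cell q = c := by
      intro c q hq
      rw [hY, Finset.mem_filter, hXmem] at hq
      exact hq
    have hYd : ∀ c, ∀ x ∈ Y c, ∀ y ∈ Y c, ‖io x - io y‖ ≤ T' ^ (-δ) := by
      intro c x hx y hy
      have hx' := hYmem c x hx
      have hy' := hYmem c y hy
      have e : ‖io x - io y‖ = |(x : ℝ) - y| := by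
        have : io x - io y = (((x : ℝ) - y : ℝ) : ℂ) := by simp [io]
        rw [this, Complex.norm_real, Real.norm_eq_abs]
      rw [e, Real.rpow_neg hT'0.le, ← one_div, le_div_iff₀ hPd0]
      have hx0 : 0 ≤ ((x : ℝ) - α) * T' ^ δ := mul_nonneg (by linarith [hx'.1.2.1]) hPd0.le
      have hy0 : 0 ≤ ((y : ℝ) - α) * T' ^ δ := mul_nonneg (by linarith [hy'.1.2.1]) hPd0.le
      have a1 := Nat.floor_le hx0
      have a2 := Nat.lt_floor_add_one (((x : ℝ) - α) * T' ^ δ)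
      have b1 := Nat.floor_le hy0
      have b2 := Nat.lt_floor_add_one (((y : ℝ) - α) * T' ^ δ)
      have ex : ⌊((x : ℝ) - α) * T' ^ δ⌋₊ = c := hx'.2
      have ey : ⌊((y : ℝ) - α) * T' ^ δ⌋₊ = c := hy'.2
      rw [ex] at a1 a2
      rw [ey] at b1 b2
      have e2 : |(x : ℝ) - y| * T' ^ δ = |((x : ℝ) - α) * T' ^ δ - ((y : ℝ) - α) * T' ^ δ| := by
        rw [← sub_mul, abs_mul, abs_of_pos hPd0]
        congr 2
        ring
      rw [e2, abs_le]
      constructor <;> linarith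
    -- one cell
    have hone : ∀ c : Fin r → ℕ, (({x : Fin r → ℚ | (∀ j, x j ∈ Y (c j)) ∧ Related S d (T' ^ A) (T' ^ (-B₀)) io ξ a x}.ncard : ℕ) : ℝ) ≤
        |C₀| * (r * ((X T).card : ℝ) ^ (r - 1)) := by
      intro c
      have h1 := H1 ξ T' hT₀' (fun j => Y (c j)) (fun j x hx => ?_) (fun j => hYd (c j))
      · refine h1.trans ?_
        have h2 : ∑ j : Fin r, ∏ i ∈ Finset.univ.erase j, ((Y (c i)).card : ℝ) ≤ r * ((X T).card : ℝ) ^ (r - 1) := by
          have h3 : ∀ j ∈ (Finset.univ : Finset (Fin r)), ∏ i ∈ Finset.univ.erase j, ((Y (c i)).card : ℝ) ≤ ((X T).card : ℝ) ^ (r - 1) := by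
            intro j _
            calc ∏ i ∈ Finset.univ.erase j, ((Y (c i)).card : ℝ) ≤ ∏ _i ∈ (Finset.univ : Finset (Fin r)).erase j, ((X T).card : ℝ) :=
                  Finset.prod_le_prod (fun i _ => Nat.cast_nonneg _) fun i _ => by exact_mod_cast hYX (c i)
              _ = _ := by
                  rw [Finset.prod_const, Finset.card_erase_of_mem (Finset.mem_univ j), Finset.card_univ, Fintype.card_fin]
          have h4 := Finset.sum_le_card_nsmul _ _ _ h3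
          rwa [Finset.card_univ, Fintype.card_fin, nsmul_eq_mul] at h4
        have h5 : 0 ≤ ∑ j : Fin r, ∏ i ∈ Finset.univ.erase j, ((Y (c i)).card : ℝ) :=
          Finset.sum_nonneg fun j _ => Finset.prod_nonneg fun i _ => Nat.cast_nonneg _
        calc C₀ * ∑ j : Fin r, ∏ i ∈ Finset.univ.erase j, ((Y (c i)).card : ℝ)
            ≤ |C₀| * ∑ j : Fin r, ∏ i ∈ Finset.univ.erase j, ((Y (c i)).card : ℝ) := mul_le_mul_of_nonneg_right (le_abs_self _) h5
          _ ≤ _ := mul_le_mul_of_nonneg_left h2 (abs_nonneg _)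
      · have hx' := hYmem _ x hx
        have e1 : (io x).re = x := by simp [io]
        have e2 : ‖io x‖ = |(x : ℝ)| := by
          have : io x = ((x : ℝ) : ℂ) := by simp [io]
          rw [this, Complex.norm_real, Real.norm_eq_abs]
        refine ⟨by rw [e1]; exact hx'.1.2.1, by rw [e2]; exact hx'.1.1.1, quot_of_den hβ hx'.1.1.1 hx'.1.1.2⟩
    -- the error
    have herr : ∀ t : Fin r → ℚ, T / 2 < (height t : ℝ) → (height t : ℝ) ^ (-(B₁ + 1)) ≤ T' ^ (-B₀) := by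
      intro t ht
      have hh0 : (0 : ℝ) < height t := by linarith [one_le_height t]
      have h1 : T' ^ (-B₁) ≤ T' ^ (-B₀) := Real.rpow_le_rpow_of_exponent_le hT'1 (by linarith [le_max_left B₀ 0])
      refine le_trans ?_ h1
      have h2 : (height t : ℝ) ^ (-(B₁ + 1)) ≤ (T / 2) ^ (-(B₁ + 1)) :=
        Real.rpow_le_rpow_of_nonpos (by positivity) ht.le (by linarith)
      refine h2.trans ?_
      rw [Real.rpow_neg (by positivity), Real.rpow_neg hT'0.le]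
      apply inv_anti₀ (Real.rpow_pos_of_pos hT'0 _)
      rw [hT', Real.mul_rpow (by linarith) hT0.le, Real.div_rpow hT0.le (by norm_num), le_div_iff₀ (Real.rpow_pos_of_pos (by norm_num) _),
        Real.rpow_add hT0, Real.rpow_one]
      have h3 : 2 ^ (B₁ + 1) * β ^ B₁ ≤ T := (le_max_right _ _).trans hTT
      have h4 : 0 < T ^ B₁ := Real.rpow_pos_of_pos hT0 _
      calc β ^ B₁ * T ^ B₁ * 2 ^ (B₁ + 1) = T ^ B₁ * (2 ^ (B₁ + 1) * β ^ B₁) := by ring
        _ ≤ T ^ B₁ * T := mul_le_mul_of_nonneg_left h3 h4.le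
    -- the covering
    set Z : (Fin r → ℕ) → Finset (Fin r → ℚ) := fun c => (Fintype.piFinset fun j => Y (c j)).filter fun x =>
      Related S d (T' ^ A) (T' ^ (-B₀)) io ξ a x with hZ
    have hZc : ∀ c, ((Z c).card : ℝ) ≤ |C₀| * (r * ((X T).card : ℝ) ^ (r - 1)) := by
      intro c
      refine le_trans (le_of_eq ?_) (hone c)
      rw [← Set.ncard_coe_finset]
      congr 2
      ext x
      simp only [hZ, Finset.coe_filter, Fintype.mem_piFinset, Set.mem_ofPred_eq]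
    have hcov : Sh ⊆ (((Fintype.piFinset fun _ : Fin r => Finset.range (M + 1)).biUnion Z : Finset (Fin r → ℚ)) : Set (Fin r → ℚ)) := by
      rintro t ⟨⟨h1, h2⟩, h3, h4⟩
      rw [Finset.mem_coe, Finset.mem_biUnion]
      refine ⟨fun j => cell (t j), ?_, ?_⟩
      · rw [Fintype.mem_piFinset]
        intro j
        rw [Finset.mem_range, Nat.lt_succ_iff]
        apply Nat.floor_le_floor
        apply mul_le_mul_of_nonneg_right _ hPd0.le
        linarith [(h1 j).2]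
      · rw [hZ, Finset.mem_filter, Fintype.mem_piFinset]
        refine ⟨fun j => ?_, ?_⟩
        · rw [hY, Finset.mem_filter]
          exact ⟨hin T t h1 h4 j, rfl⟩
        · have hh1 := one_le_height t
          refine (Rel.mono ?_ ?_ h2).related
          · exact Real.rpow_le_rpow (by linarith) (h4.trans hT'T) hA
          · exact herr t h3
    have h1 : Sh.ncard ≤ ((Fintype.piFinset fun _ : Fin r => Finset.range (M + 1)).biUnion Z : Finset (Fin r → ℚ)).card := by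
      rw [← Set.ncard_coe_finset]
      exact Set.ncard_le_ncard hcov (Finset.finite_toSet _)
    have h2 : (((Fintype.piFinset fun _ : Fin r => Finset.range (M + 1)).biUnion Z : Finset (Fin r → ℚ)).card : ℝ) ≤
        ((M : ℝ) + 1) ^ r * (|C₀| * (r * ((X T).card : ℝ) ^ (r - 1))) := by
      have h3 : (((Fintype.piFinset fun _ : Fin r => Finset.range (M + 1)).biUnion Z : Finset (Fin r → ℚ)).card : ℝ) ≤
          ∑ c ∈ (Fintype.piFinset fun _ : Fin r => Finset.range (M + 1)), ((Z c).card : ℝ) := by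
        exact_mod_cast Finset.card_biUnion_le
      refine h3.trans ?_
      have h4 := Finset.sum_le_card_nsmul (Fintype.piFinset fun _ : Fin r => Finset.range (M + 1)) (fun c => ((Z c).card : ℝ)) _
        (fun c _ => hZc c)
      rw [Fintype.card_piFinset_const, Finset.card_range, nsmul_eq_mul] at h4
      push_cast at h4
      exact h4
    have hMb : (M : ℝ) + 1 ≤ ((β + 1) * β ^ δ + 1) * T ^ δ := by
      have h3 : (M : ℝ) ≤ β * T' ^ δ := Nat.floor_le (by positivity)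
      have h4 : T' ^ δ = β ^ δ * T ^ δ := by rw [hT', Real.mul_rpow (by linarith) hT0.le]
      have h5 : 1 ≤ T ^ δ := Real.one_le_rpow hT hδ0.le
      have h6 : 0 < β ^ δ := Real.rpow_pos_of_pos (by linarith) _
      rw [h4] at h3
      nlinarith [mul_pos h6 (by linarith : 0 < T ^ δ)]
    have hXb := hXc T hT
    have hfinal : ((M : ℝ) + 1) ^ r * (|C₀| * (r * ((X T).card : ℝ) ^ (r - 1))) ≤
        (((β + 1) * β ^ δ + 1) ^ r * (|C₀| * (r * (2 * β + 1) ^ (r - 1)))) * T ^ ((2 * ((r : ℝ) - 1)) + ε) := by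
      have e1 : T ^ ((2 * ((r : ℝ) - 1)) + ε) = (T ^ δ) ^ r * (T ^ 2) ^ (r - 1) := by
        rw [← Real.rpow_natCast (T ^ δ) r, ← Real.rpow_mul hT0.le, ← pow_mul, ← Real.rpow_natCast T, ← Real.rpow_add hT0]
        congr 1
        rw [hδ, Nat.cast_mul, Nat.cast_sub hr]
        push_cast
        field_simp
        ring
      rw [e1]
      calc ((M : ℝ) + 1) ^ r * (|C₀| * (r * ((X T).card : ℝ) ^ (r - 1)))
          ≤ (((β + 1) * β ^ δ + 1) * T ^ δ) ^ r * (|C₀| * (r * ((2 * β + 1) * T ^ 2) ^ (r - 1))) := by gcongr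
        _ = _ := by rw [mul_pow, mul_pow]; ring
    have hσ0 : 0 < T ^ ((2 * ((r : ℝ) - 1)) + ε) := by linarith
    calc (Sh.ncard : ℝ) ≤ _ := by exact_mod_cast h1
      _ ≤ ((M : ℝ) + 1) ^ r * (|C₀| * (r * ((X T).card : ℝ) ^ (r - 1))) := h2
      _ ≤ _ := hfinal
      _ ≤ C * T ^ ((2 * ((r : ℝ) - 1)) + ε) := by
          apply mul_le_mul_of_nonneg_right _ hσ0.le
          rw [hC]
          have : 0 ≤ ((2 * β + 1) * T₁ ^ 2) ^ r := by positivity
          linarith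

end Pool.Agent.K7.H55.HZ
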